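import Pool.Agent.H74.Tri.Comp
import Pool.Agent.H52.Tri.Base

set_option autoImplicit false

/-! MP_2e6055 (helper11): black circuits block paths. -/

namespace Pool.Agent.H11.Tri

open Pool.Agent.H7.UC Pool.Agent.H74.Tri

/-- black path from row `y` to row `y'` in `[x,x'] × [y,y']` -/
def vcr (x x' y y' : ℤ) (Ω : Fc → Bool) : Prop := ∃ u v : Fc, u.2 = y ∧ v.2 = y' ∧
  (x ≤ u.1 ∧ u.1 ≤ x' ∧ y ≤ u.2 ∧ u.2 ≤ y') ∧ Ω u = true ∧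
  Jn {z | (x ≤ z.1 ∧ z.1 ≤ x' ∧ y ≤ z.2 ∧ z.2 ≤ y') ∧ Ω z = true} u v

/-- black path from column `x` to column `x'` in `[x,x'] × [y,y']` -/
def hcr (x x' y y' : ℤ) (Ω : Fc → Bool) : Prop := ∃ u v : Fc, u.1 = x ∧ v.1 = x' ∧
  (x ≤ u.1 ∧ u.1 ≤ x' ∧ y ≤ u.2 ∧ u.2 ≤ y') ∧ Ω u = true ∧
  Jn {z | (x ≤ z.1 ∧ z.1 ≤ x' ∧ y ≤ z.2 ∧ z.2 ≤ y') ∧ Ω z = true} u v

theorem jn_pa {S : Set Fc} {u v : Fc} (hu : u ∈ S) (h : Jn S u v) :
    Pool.Agent.H52.Tri.Pa (fun z => z ∈ S) u v :=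
  ⟨hu, Relation.ReflTransGen.mono
    (fun _ _ hab => ⟨Pool.Agent.H52.Tri.TA_iff_adjF.2 hab.2, hab.1⟩) _ _ h⟩

/-- a black vertical crossing meets every horizontal path of the rectangle -/
theorem vcr_meets {x x' y y' : ℤ} {Ω : Fc → Bool} (hb : vcr x x' y y' Ω) {T : Set Fc} {p q : Fc}
    (hp : p ∈ T) (h : Jn T p q) (hT : ∀ z ∈ T, x ≤ z.1 ∧ z.1 ≤ x' ∧ y ≤ z.2 ∧ z.2 ≤ y')
    (h1 : p.1 = x) (h2 : q.1 = x') : ∃ z ∈ T, Ω z = true := by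
  obtain ⟨u, v, hu, hv, hur, huΩ, hj⟩ := hb
  obtain ⟨z, h3, h4⟩ := Pool.Agent.H52.Tri.cross (jn_pa hp h)
    (fun z hz => ⟨(hT z hz).2.2.1, (hT z hz).2.2.2⟩)
    (jn_pa (S := {z : Fc | (x ≤ z.1 ∧ z.1 ≤ x' ∧ y ≤ z.2 ∧ z.2 ≤ y') ∧ Ω z = true})
      ⟨hur, huΩ⟩ hj) hu hv
    (fun z hz _ => by rw [h1]; exact hz.1.1) (fun z hz _ => by rw [h2]; exact hz.1.2.1)
  exact ⟨z, h3, h4.2⟩

/-- exchange of the coordinates -/
def swp (z : Fc) : Fc := (z.2, z.1)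

theorem swp_swp (z : Fc) : swp (swp z) = z := rfl

theorem adj_swp {a b : Fc} (h : adjF a b) : adjF (swp a) (swp b) := by
  rw [adjF_iff] at h ⊢
  unfold swp
  simp only
  omega

theorem jn_swp {S : Set Fc} {u v : Fc} (h : Jn S u v) : Jn (swp ⁻¹' S) (swp u) (swp v) := by
  induction h with
  | refl => exact Jn.refl _
  | tail _ h2 ih =>
    refine ih.step ?_ (adj_swp h2.2)
    show swp (swp _) ∈ S
    rw [swp_swp]
    exact h2.1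

theorem hcr_meets {x x' y y' : ℤ} {Ω : Fc → Bool} (hb : hcr x x' y y' Ω) {T : Set Fc} {p q : Fc}
    (hp : p ∈ T) (h : Jn T p q) (hT : ∀ z ∈ T, x ≤ z.1 ∧ z.1 ≤ x' ∧ y ≤ z.2 ∧ z.2 ≤ y')
    (h1 : p.2 = y) (h2 : q.2 = y') : ∃ z ∈ T, Ω z = true := by
  have hb' : vcr y y' x x' (fun z => Ω (swp z)) := by
    obtain ⟨u, v, hu, hv, hur, huΩ, hj⟩ := hb
    refine ⟨swp u, swp v, hu, hv, ⟨hur.2.2.1, hur.2.2.2, hur.1, hur.2.1⟩, huΩ, ?_⟩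
    refine (jn_swp hj).mono ?_
    rintro z ⟨hz, hz2⟩
    exact ⟨⟨hz.2.2.1, hz.2.2.2, hz.1, hz.2.1⟩, hz2⟩
  obtain ⟨z, h3, h4⟩ := vcr_meets hb' (T := swp ⁻¹' T) (p := swp p) (q := swp q) hp (jn_swp h)
    (fun z hz => by
      have := hT _ hz
      exact ⟨this.2.2.1, this.2.2.2, this.1, this.2.1⟩) h1 h2
  exact ⟨swp z, h3, h4⟩

/-- two adjacent faces: the coordinates differ by at most one -/
theorem adj_le {a b : Fc} (h : adjF a b) : a.1 - 1 ≤ b.1 ∧ b.1 ≤ a.1 + 1 ∧ a.2 - 1 ≤ b.2 ∧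
    b.2 ≤ a.2 + 1 := by
  rw [adjF_iff] at h
  omega

/-- **BLOCK.** Four black long crossings around the square: every path of faces from the inner square to
the outside meets a black face of the annulus. -/
theorem block' {p : Fc} {w : ℤ} {Ω : Fc → Bool}
    (ht : hcr (p.1 - 3 * w) (p.1 + 3 * w) (p.2 + w) (p.2 + 3 * w) Ω)
    (hb : hcr (p.1 - 3 * w) (p.1 + 3 * w) (p.2 - 3 * w) (p.2 - w) Ω)
    (hl : vcr (p.1 - 3 * w) (p.1 - w) (p.2 - 3 * w) (p.2 + 3 * w) Ω)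
    (hr : vcr (p.1 + w) (p.1 + 3 * w) (p.2 - 3 * w) (p.2 + 3 * w) Ω)
    {S : Set Fc} {u v : Fc} (h : Jn S u v) (hu : |u.1 - p.1| < w ∧ |u.2 - p.2| < w)
    (hv : 3 * w < |v.1 - p.1| ∨ 3 * w < |v.2 - p.2|) :
    ∃ z ∈ S, (|z.1 - p.1| ≤ 3 * w ∧ |z.2 - p.2| ≤ 3 * w) ∧ (w ≤ |z.1 - p.1| ∨ w ≤ |z.2 - p.2|) ∧
      Ω z = true := by
  set A : Set Fc := {z | |z.1 - p.1| ≤ 3 * w ∧ |z.2 - p.2| ≤ 3 * w} with hA
  have hw : 0 < w := lt_of_le_of_lt (abs_nonneg _) hu.1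
  have huA : u ∈ A := ⟨by linarith [hu.1], by linarith [hu.2]⟩
  have hvA : v ∉ A := by
    rintro ⟨h1, h2⟩
    rcases hv with h | h <;> linarith
  obtain ⟨a, b, h1, h2, h3, h4, h5, _⟩ := h.exit huA hvA
  have hab := adj_le h5
  have h6 : Jn (insert u S ∩ A) u a := h1.mono (Set.inter_subset_inter_left _ (Set.subset_insert _ _))
  have h7 : Jn (insert u S ∩ A) a u := h6.symm ⟨Set.mem_insert _ _, huA⟩
  have haI : a ∈ insert u S ∩ A := Jn.mem h6 ⟨Set.mem_insert _ _, huA⟩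
  have hur := hu
  rw [abs_lt, abs_lt] at hur
  have ha2 := h2
  have hmemA : ∀ z : Fc, z ∈ A ↔ (p.1 - 3 * w ≤ z.1 ∧ z.1 ≤ p.1 + 3 * w) ∧
      (p.2 - 3 * w ≤ z.2 ∧ z.2 ≤ p.2 + 3 * w) := by
    intro z
    rw [hA]
    show (|z.1 - p.1| ≤ 3 * w ∧ |z.2 - p.2| ≤ 3 * w) ↔ _
    rw [abs_le, abs_le]
    constructor
    · rintro ⟨⟨h1, h2⟩, h3, h4⟩
      refine ⟨⟨by omega, by omega⟩, by omega, by omega⟩
    · rintro ⟨⟨h1, h2⟩, h3, h4⟩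
      refine ⟨⟨by omega, by omega⟩, by omega, by omega⟩
  rw [hmemA] at ha2 h4
  -- the end of the argument
  have fin : ∀ (z : Fc), z ∈ insert u S ∩ A → (z.1 ≤ p.1 - w ∨ p.1 + w ≤ z.1 ∨
      z.2 ≤ p.2 - w ∨ p.2 + w ≤ z.2) → Ω z = true →
      ∃ z ∈ S, (|z.1 - p.1| ≤ 3 * w ∧ |z.2 - p.2| ≤ 3 * w) ∧
        (w ≤ |z.1 - p.1| ∨ w ≤ |z.2 - p.2|) ∧ Ω z = true := by
    intro z hz hz2 hz3
    have hzu : z ≠ u := by
      rintro rfl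
      omega
    refine ⟨z, ?_, hz.2, ?_, hz3⟩
    · rcases hz.1 with h | h
      · exact absurd h hzu
      · exact h
    · rcases hz2 with h | h | h | h
      · left; linarith [neg_abs_le (z.1 - p.1)]
      · left; linarith [le_abs_self (z.1 - p.1)]
      · right; linarith [neg_abs_le (z.2 - p.2)]
      · right; linarith [le_abs_self (z.2 - p.2)]
  have hcase : a.1 = p.1 + 3 * w ∨ a.1 = p.1 - 3 * w ∨ a.2 = p.2 + 3 * w ∨ a.2 = p.2 - 3 * w := by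
    omega
  rcases hcase with hc | hc | hc | hc
  · -- right side
    obtain ⟨a', b', g1, g2, g3, g4, g5, _⟩ := h7.exit (A := {z : Fc | p.1 + w ≤ z.1})
      (by show p.1 + w ≤ a.1; omega) (by show ¬ p.1 + w ≤ u.1; omega)
    have gab := adj_le g5
    have g2' : p.1 + w ≤ a'.1 := g2
    have g4' : ¬ p.1 + w ≤ b'.1 := g4
    have haT : a ∈ (insert u S ∩ A) ∩ {z : Fc | p.1 + w ≤ z.1} :=
      ⟨haI, by show p.1 + w ≤ a.1; omega⟩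
    have ha'T : a' ∈ (insert u S ∩ A) ∩ {z : Fc | p.1 + w ≤ z.1} := Jn.mem g1 haT
    obtain ⟨z, hz1, hz2⟩ := vcr_meets hr ha'T (g1.symm haT) (by
      rintro z ⟨⟨_, hz⟩, hz'⟩
      have hz'' : p.1 + w ≤ z.1 := hz'
      rw [hmemA] at hz
      omega) (by omega) (by omega)
    have hz' : p.1 + w ≤ z.1 := hz1.2
    exact fin z hz1.1 (Or.inr (Or.inl hz')) hz2
  · -- left side
    obtain ⟨a', b', g1, g2, g3, g4, g5, _⟩ := h7.exit (A := {z : Fc | z.1 ≤ p.1 - w})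
      (by show a.1 ≤ p.1 - w; omega) (by show ¬ u.1 ≤ p.1 - w; omega)
    have gab := adj_le g5
    have g2' : a'.1 ≤ p.1 - w := g2
    have g4' : ¬ b'.1 ≤ p.1 - w := g4
    have haT : a ∈ (insert u S ∩ A) ∩ {z : Fc | z.1 ≤ p.1 - w} :=
      ⟨haI, by show a.1 ≤ p.1 - w; omega⟩
    obtain ⟨z, hz1, hz2⟩ := vcr_meets hl haT g1 (by
      rintro z ⟨⟨_, hz⟩, hz'⟩
      have hz'' : z.1 ≤ p.1 - w := hz'
      rw [hmemA] at hz
      omega) (by omega) (by omega)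
    have hz' : z.1 ≤ p.1 - w := hz1.2
    exact fin z hz1.1 (Or.inl hz') hz2
  · -- top
    obtain ⟨a', b', g1, g2, g3, g4, g5, _⟩ := h7.exit (A := {z : Fc | p.2 + w ≤ z.2})
      (by show p.2 + w ≤ a.2; omega) (by show ¬ p.2 + w ≤ u.2; omega)
    have gab := adj_le g5
    have g2' : p.2 + w ≤ a'.2 := g2
    have g4' : ¬ p.2 + w ≤ b'.2 := g4
    have haT : a ∈ (insert u S ∩ A) ∩ {z : Fc | p.2 + w ≤ z.2} :=
      ⟨haI, by show p.2 + w ≤ a.2; omega⟩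
    have ha'T : a' ∈ (insert u S ∩ A) ∩ {z : Fc | p.2 + w ≤ z.2} := Jn.mem g1 haT
    obtain ⟨z, hz1, hz2⟩ := hcr_meets ht ha'T (g1.symm haT) (by
      rintro z ⟨⟨_, hz⟩, hz'⟩
      have hz'' : p.2 + w ≤ z.2 := hz'
      rw [hmemA] at hz
      omega) (by omega) (by omega)
    have hz' : p.2 + w ≤ z.2 := hz1.2
    exact fin z hz1.1 (Or.inr (Or.inr (Or.inr hz'))) hz2
  · -- bottom
    obtain ⟨a', b', g1, g2, g3, g4, g5, _⟩ := h7.exit (A := {z : Fc | z.2 ≤ p.2 - w})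
      (by show a.2 ≤ p.2 - w; omega) (by show ¬ u.2 ≤ p.2 - w; omega)
    have gab := adj_le g5
    have g2' : a'.2 ≤ p.2 - w := g2
    have g4' : ¬ b'.2 ≤ p.2 - w := g4
    have haT : a ∈ (insert u S ∩ A) ∩ {z : Fc | z.2 ≤ p.2 - w} :=
      ⟨haI, by show a.2 ≤ p.2 - w; omega⟩
    obtain ⟨z, hz1, hz2⟩ := hcr_meets hb haT g1 (by
      rintro z ⟨⟨_, hz⟩, hz'⟩
      have hz'' : z.2 ≤ p.2 - w := hz'
      rw [hmemA] at hz
      omega) (by omega) (by omega)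
    have hz' : z.2 ≤ p.2 - w := hz1.2
    exact fin z hz1.1 (Or.inr (Or.inr (Or.inl hz'))) hz2

end Pool.Agent.H11.Tri
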