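import Pool.Agent.H74.Tri.Iface

set_option autoImplicit false

/-! MP_2e6055, module TOP (helper11): INIT. -/

namespace Pool.Agent.H11.Tri

open Pool.Agent.H7.UC Pool.Agent.H74.Tri

theorem mem_box {m n : ℕ} {f : Fc} : f ∈ box m n ↔ 0 ≤ f.1 ∧ f.1 < m ∧ 0 ≤ f.2 ∧ f.2 < n := by
  unfold box
  rw [Finset.mem_product, Finset.mem_Ico, Finset.mem_Ico]
  tauto

theorem adj_r (i j : ℤ) : adjF (i, j) (i + 1, j) := by
  rw [adjF_iff]; exact Or.inl ⟨rfl, rfl⟩

theorem adj_u (i j : ℤ) : adjF (i, j) (i, j + 1) := by
  rw [adjF_iff]; exact Or.inr (Or.inr (Or.inl ⟨rfl, rfl⟩))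

theorem hor_aux (S : Set Fc) (i j : ℤ) (n : ℕ) (h : ∀ t, i ≤ t → t ≤ i + n → (t, j) ∈ S) :
    Jn S (i, j) (i + n, j) := by
  induction n with
  | zero => simp; exact Jn.refl _
  | succ n ih =>
    have h1 := ih (fun t h1 h2 => h t h1 (by push_cast; omega))
    refine h1.step (h _ (by push_cast; omega) le_rfl) ?_
    have := adj_r (i + n) j
    convert this using 2
    push_cast
    ring

theorem hor (S : Set Fc) (i i' j : ℤ) (h : ∀ t, min i i' ≤ t → t ≤ max i i' → (t, j) ∈ S) :
    Jn S (i, j) (i', j) := by
  rcases le_total i i' with hii | hii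
  · rw [min_eq_left hii, max_eq_right hii] at h
    obtain ⟨n, hn⟩ := Int.le.dest hii
    have := hor_aux S i j n (by rw [hn]; exact h)
    rwa [hn] at this
  · rw [min_eq_right hii, max_eq_left hii] at h
    obtain ⟨n, hn⟩ := Int.le.dest hii
    have := hor_aux S i' j n (by rw [hn]; exact h)
    rw [hn] at this
    exact this.symm (h i' le_rfl hii)

theorem ver_aux (S : Set Fc) (i j : ℤ) (n : ℕ) (h : ∀ t, j ≤ t → t ≤ j + n → (i, t) ∈ S) :
    Jn S (i, j) (i, j + n) := by
  induction n with
  | zero => simp; exact Jn.refl _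
  | succ n ih =>
    have h1 := ih (fun t h1 h2 => h t h1 (by push_cast; omega))
    refine h1.step (h _ (by push_cast; omega) le_rfl) ?_
    have := adj_u i (j + n)
    convert this using 2
    push_cast
    ring

theorem ver (S : Set Fc) (i j j' : ℤ) (h : ∀ t, min j j' ≤ t → t ≤ max j j' → (i, t) ∈ S) :
    Jn S (i, j) (i, j') := by
  rcases le_total j j' with hii | hii
  · rw [min_eq_left hii, max_eq_right hii] at h
    obtain ⟨n, hn⟩ := Int.le.dest hii
    have := ver_aux S i j n (by rw [hn]; exact h)
    rwa [hn] at this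
  · rw [min_eq_right hii, max_eq_left hii] at h
    obtain ⟨n, hn⟩ := Int.le.dest hii
    have := ver_aux S i j' n (by rw [hn]; exact h)
    rw [hn] at this
    exact this.symm (h j' le_rfl hii)

theorem dom_box {m n : ℕ} (hm : 1 ≤ m) (hn : 1 ≤ n) : IsDom (box m n) := by
  have hm' : (1 : ℤ) ≤ m := by exact_mod_cast hm
  have hn' : (1 : ℤ) ≤ n := by exact_mod_cast hn
  have h00 : ((0 : ℤ), (0 : ℤ)) ∈ box m n := mem_box.2 ⟨le_rfl, by omega, le_rfl, by omega⟩
  refine ⟨⟨_, h00⟩, ?_, ?_⟩
  · have key : ∀ f ∈ box m n, Jn (↑(box m n) : Set Fc) f (0, 0) := by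
      rintro ⟨i, j⟩ hf
      rw [mem_box] at hf
      simp only at hf
      refine (hor _ i 0 j ?_).trans (ver _ 0 j 0 ?_)
      · intro t h1 h2
        refine Finset.mem_coe.2 (mem_box.2 ?_)
        simp only
        omega
      · intro t h1 h2
        refine Finset.mem_coe.2 (mem_box.2 ?_)
        simp only
        omega
    intro f hf g hg
    exact (key f hf).trans ((key g hg).symm (Finset.mem_coe.2 hg))
  · have key : ∀ f, f ∉ box m n → Jn {a | a ∉ box m n} f ((m : ℤ), 0) := by
      rintro ⟨i, j⟩ hf
      rw [mem_box] at hf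
      simp only at hf
      by_cases hi : i < 0
      · refine ((ver _ i j (-1) ?_).trans (hor _ i m (-1) ?_)).trans (ver _ (m : ℤ) (-1) 0 ?_)
        · intro t h1 h2 h3
          have := mem_box.1 h3
          simp only at this
          omega
        · intro t h1 h2 h3
          have := mem_box.1 h3
          simp only at this
          omega
        · intro t h1 h2 h3
          have := mem_box.1 h3
          simp only at this
          omega
      · refine (hor _ i m j ?_).trans (ver _ (m : ℤ) j 0 ?_)
        · intro t h1 h2 h3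
          have := mem_box.1 h3
          simp only at this
          omega
        · intro t h1 h2 h3
          have := mem_box.1 h3
          simp only at this
          omega
    intro f hf g hg
    exact (key f hf).trans ((key g hg).symm hg)

theorem chg_box {m n : ℕ} {ω : Fc → Bool} (hω : BC m n ω) {v : Vx} (h : chg (box m n) ω v) :
    v = (-1, -1, true) ∨ v = (-1, (n : ℤ) - 1, true) := by
  obtain ⟨k, h0, h1, h2, h3⟩ := h
  rw [hω _ h1, hω _ h2] at h3
  rw [mem_box] at h0 h1 h2
  have h3' : ¬ ((fc v (k + 1)).1 < 0 ↔ (fc v (k + 2)).1 < 0) := by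
    intro h
    exact h3 (by simp only [h])
  obtain ⟨i, j, b⟩ := v
  have q00 : (0 : Fin 3) + 1 = 1 := rfl
  have q01 : (0 : Fin 3) + 2 = 2 := rfl
  have q10 : (1 : Fin 3) + 1 = 2 := rfl
  have q11 : (1 : Fin 3) + 2 = 0 := rfl
  have q20 : (2 : Fin 3) + 1 = 0 := rfl
  have q21 : (2 : Fin 3) + 2 = 1 := rfl
  fin_cases k <;> cases b <;>
    simp only [Fin.zero_eta, Fin.mk_one, Fin.reduceFinMk, q00, q01, q10, q11, q20, q21, fc,
      Prod.mk.injEq, and_true, reduceCtorEq, and_false, or_self] at h0 h1 h2 h3' ⊢ <;>
    first | exact absurd trivial h3' | omega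

theorem init : Init := by
  intro m n ω hm hn hω
  have hm' : (1 : ℤ) ≤ m := by exact_mod_cast hm
  have hn' : (1 : ℤ) ≤ n := by exact_mod_cast hn
  refine ⟨⟨dom_box hm hn, ?_, ?_⟩, ?_⟩
  · intro a b c ha hb hc
    have ha := chg_box hω ha
    have hb := chg_box hω hb
    have hc := chg_box hω hc
    rcases ha with rfl | rfl <;> rcases hb with rfl | rfl <;> rcases hc with rfl | rfl <;> simp
  · intro f g hf hg htf htg hfg
    have key : ∀ c : Bool, ∃ z : Fc, ∀ f, f ∉ box m n → ω f = c → 
        Jn {a | a ∉ box m n ∧ ω a = c} f z ∧ (z ∉ box m n ∧ ω z = c) := by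
      intro c
      cases c
      · refine ⟨((m : ℤ), 0), ?_⟩
        rintro ⟨i, j⟩ hf hc
        have hz : ∀ t : ℤ, ((m : ℤ), t) ∈ {a | a ∉ box m n ∧ ω a = false} := by
          intro t
          have h1 : ((m : ℤ), t) ∉ box m n := by
            intro h
            have := mem_box.1 h
            simp only at this
            omega
          refine ⟨h1, ?_⟩
          rw [hω _ h1]
          simp
        refine ⟨?_, hz 0⟩
        rw [hω _ hf] at hc
        simp only [decide_eq_false_iff_not] at hc
        rw [mem_box] at hf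
        simp only at hf
        refine (hor _ i m j ?_).trans (ver _ (m : ℤ) j 0 fun t _ _ => hz t)
        intro t h1 h2
        have h3 : (t, j) ∉ box m n := by
          intro h
          have := mem_box.1 h
          simp only at this
          omega
        refine ⟨h3, ?_⟩
        rw [hω _ h3]
        simp only [decide_eq_false_iff_not]
        omega
      · refine ⟨(-1, 0), ?_⟩
        rintro ⟨i, j⟩ hf hc
        have hz : ∀ i t : ℤ, i < 0 → (i, t) ∈ {a | a ∉ box m n ∧ ω a = true} := by
          intro i t hi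
          have h1 : (i, t) ∉ box m n := by
            intro h
            have := mem_box.1 h
            simp only at this
            omega
          refine ⟨h1, ?_⟩
          rw [hω _ h1]
          simpa using hi
        refine ⟨?_, hz _ 0 (by norm_num)⟩
        rw [hω _ hf] at hc
        simp only [decide_eq_true_eq] at hc
        refine (hor _ i (-1) j ?_).trans (ver _ (-1) j 0 fun t _ _ => hz _ t (by norm_num))
        intro t h1 h2
        exact hz _ _ (by omega)
    obtain ⟨z, hz⟩ := key (ω f)
    exact (hz f hf rfl).1.trans ((hz g hg hfg.symm).1.symm ⟨hg, hfg.symm⟩)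
  · have e0 : ph p0 = (0, 0) := rfl
    have e1 : pl p0 = (-1, 0) := rfl
    have e2 : pr p0 = (0, -1) := rfl
    have h1 : pl p0 ∉ box m n := by
      rw [e1]
      intro h
      have := mem_box.1 h
      simp only at this
      omega
    have h2 : pr p0 ∉ box m n := by
      rw [e2]
      intro h
      have := mem_box.1 h
      simp only at this
      omega
    refine ⟨?_, h1, h2, ?_, ?_⟩
    · rw [e0]
      exact mem_box.2 ⟨le_rfl, by omega, le_rfl, by omega⟩
    · rw [hω _ h1, e1]; rfl
    · rw [hω _ h2, e2]; rfl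

end Pool.Agent.H11.Tri
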