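import Pool.Agent.H74.Tri.Iface
import Pool.Agent.H63.UC.MD1

set_option autoImplicit false

/-! MP_2e6055, module TOP (helper11): ARC. -/

namespace Pool.Agent.H11.Tri

open Pool.Agent.H7.UC Pool.Agent.H74.Tri

theorem dv_rot (x : Ed → ZMod 2) (v : Vx) (k : Fin 3) :
    dv x v = x (ed v k) + x (ed v (k + 1)) + x (ed v (k + 2)) := by
  unfold dv
  fin_cases k
  · rfl
  · show _ = x (ed v 1) + x (ed v 2) + x (ed v 0)
    ring
  · show _ = x (ed v 2) + x (ed v 0) + x (ed v 1)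
    ring

/-- `a` in `U ∩ R`, `b` outside of colour `c` -/
def Out (U : Finset Fc) (R : Set Fc) (ω : Fc → Bool) (c : Bool) (a b : Fc) : Prop :=
  a ∈ U ∧ a ∈ R ∧ b ∉ U ∧ ω b = c

noncomputable def yy (U : Finset Fc) (R : Set Fc) (ω : Fc → Bool) (c : Bool) : Ed → ZMod 2 :=
  ind {e | Out U R ω c (lf e) (rf e) ∨ Out U R ω c (rf e) (lf e)}

theorem mem_ed (U : Finset Fc) (R : Set Fc) (ω : Fc → Bool) (c : Bool) (v : Vx) (k : Fin 3) :
    ed v k ∈ {e | Out U R ω c (lf e) (rf e) ∨ Out U R ω c (rf e) (lf e)} ↔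
    (Out U R ω c (fc v (k + 1)) (fc v (k + 2)) ∨ Out U R ω c (fc v (k + 2)) (fc v (k + 1))) := by
  rw [Set.mem_ofPred_eq]
  rcases ed_faces v k with ⟨h1, h2⟩ | ⟨h1, h2⟩
  · rw [h1, h2]
  · rw [h1, h2]; exact Or.comm

theorem yy_one {U : Finset Fc} {R : Set Fc} {ω : Fc → Bool} {c : Bool} {v : Vx} {k : Fin 3}
    (h : Out U R ω c (fc v (k + 1)) (fc v (k + 2)) ∨ Out U R ω c (fc v (k + 2)) (fc v (k + 1))) :
    yy U R ω c (ed v k) = 1 := ind_mem ((mem_ed U R ω c v k).2 h)

theorem yy_zero {U : Finset Fc} {R : Set Fc} {ω : Fc → Bool} {c : Bool} {v : Vx} {k : Fin 3}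
    (h : ¬ (Out U R ω c (fc v (k + 1)) (fc v (k + 2)) ∨
      Out U R ω c (fc v (k + 2)) (fc v (k + 1)))) :
    yy U R ω c (ed v k) = 0 := ind_not (fun h' => h ((mem_ed U R ω c v k).1 h'))

/-- the inner faces of colour `c` -/
abbrev Ac (U : Finset Fc) (ω : Fc → Bool) (c : Bool) : Set Fc :=
  {a | a ∈ U ∧ ∃ x, x ∉ U ∧ adjF a x ∧ ω x = c}

theorem adj_fc (v : Vx) {k l : Fin 3} (h : k ≠ l) : adjF (fc v k) (fc v l) := adjF_fc v h

theorem k01 : ∀ k : Fin 3, k ≠ k + 1 := by decide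
theorem k02 : ∀ k : Fin 3, k ≠ k + 2 := by decide
theorem k12 : ∀ k : Fin 3, k + 1 ≠ k + 2 := by decide
theorem e11 : ∀ k : Fin 3, k + 1 + 1 = k + 2 := by decide
theorem e12 : ∀ k : Fin 3, k + 1 + 2 = k := by decide
theorem e21 : ∀ k : Fin 3, k + 2 + 1 = k := by decide
theorem e22 : ∀ k : Fin 3, k + 2 + 2 = k + 1 := by decide

/-- the degree of the boundary edges of colour `c` with inner face in `R` -/
theorem dv_yy {U : Finset Fc} {R : Set Fc} {ω : Fc → Bool} {c : Bool}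
    (hR : ∀ a b, a ∈ R → b ∈ Ac U ω c → adjF a b → b ∈ R) (v : Vx)
    (h : dv (yy U R ω c) v ≠ 0) :
    chg U ω v ∧ ∃ k, fc v k ∈ U ∧ fc v (k + 1) ∉ U ∧ fc v (k + 2) ∉ U ∧ fc v k ∈ R := by
  have H0 : ∀ k, fc v k ∈ U → fc v (k + 1) ∈ U → fc v (k + 2) ∈ U → dv (yy U R ω c) v = 0 := by
    intro k h0 h1 h2
    rw [dv_rot _ v k, yy_zero, yy_zero, yy_zero]
    · rfl
    · rw [e21, e22]
      rintro (h | h)
      · exact h.2.2.1 h1
      · exact h.2.2.1 h0
    · rw [e11, e12]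
      rintro (h | h)
      · exact h.2.2.1 h0
      · exact h.2.2.1 h2
    · rintro (h | h)
      · exact h.2.2.1 h2
      · exact h.2.2.1 h1
  have H3 : ∀ k, fc v k ∉ U → fc v (k + 1) ∉ U → fc v (k + 2) ∉ U → dv (yy U R ω c) v = 0 := by
    intro k h0 h1 h2
    rw [dv_rot _ v k, yy_zero, yy_zero, yy_zero]
    · rfl
    · rw [e21, e22]
      rintro (h | h)
      · exact h0 h.1
      · exact h1 h.1
    · rw [e11, e12]
      rintro (h | h)
      · exact h2 h.1
      · exact h0 h.1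
    · rintro (h | h)
      · exact h1 h.1
      · exact h2 h.1
  have H2 : ∀ k, fc v k ∉ U → fc v (k + 1) ∈ U → fc v (k + 2) ∈ U → dv (yy U R ω c) v = 0 := by
    intro k h0 h1 h2
    have z0 : yy U R ω c (ed v k) = 0 := yy_zero (by
      rintro (h | h)
      · exact h.2.2.1 h2
      · exact h.2.2.1 h1)
    by_cases hc : ω (fc v k) = c
    · have a1 : fc v (k + 1) ∈ Ac U ω c := ⟨h1, fc v k, h0, adj_fc v (k01 k).symm, hc⟩
      have a2 : fc v (k + 2) ∈ Ac U ω c := ⟨h2, fc v k, h0, adj_fc v (k02 k).symm, hc⟩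
      by_cases hr : fc v (k + 1) ∈ R
      · have hr2 : fc v (k + 2) ∈ R := hR _ _ hr a2 (adj_fc v (k12 k))
        have z1 : yy U R ω c (ed v (k + 1)) = 1 := yy_one (by
          rw [e11, e12]
          exact Or.inl ⟨h2, hr2, h0, hc⟩)
        have z2 : yy U R ω c (ed v (k + 2)) = 1 := yy_one (by
          rw [e21, e22]
          exact Or.inr ⟨h1, hr, h0, hc⟩)
        rw [dv_rot _ v k, z0, z1, z2]
        rfl
      · have hr2 : fc v (k + 2) ∉ R := fun h => hr (hR _ _ h a1 (adj_fc v (k12 k).symm))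
        have z1 : yy U R ω c (ed v (k + 1)) = 0 := yy_zero (by
          rw [e11, e12]
          rintro (h | h)
          · exact hr2 h.2.1
          · exact h0 h.1)
        have z2 : yy U R ω c (ed v (k + 2)) = 0 := yy_zero (by
          rw [e21, e22]
          rintro (h | h)
          · exact h0 h.1
          · exact hr h.2.1)
        rw [dv_rot _ v k, z0, z1, z2]
        rfl
    · have z1 : yy U R ω c (ed v (k + 1)) = 0 := yy_zero (by
        rw [e11, e12]
        rintro (h | h)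
        · exact hc h.2.2.2
        · exact h0 h.1)
      have z2 : yy U R ω c (ed v (k + 2)) = 0 := yy_zero (by
        rw [e21, e22]
        rintro (h | h)
        · exact h0 h.1
        · exact hc h.2.2.2)
      rw [dv_rot _ v k, z0, z1, z2]
      rfl
  have H1 : ∀ k, fc v k ∈ U → fc v (k + 1) ∉ U → fc v (k + 2) ∉ U →
      chg U ω v ∧ ∃ k, fc v k ∈ U ∧ fc v (k + 1) ∉ U ∧ fc v (k + 2) ∉ U ∧ fc v k ∈ R := by
    intro k h0 h1 h2
    have z0 : yy U R ω c (ed v k) = 0 := yy_zero (by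
      rintro (h | h)
      · exact h1 h.1
      · exact h2 h.1)
    by_cases hr : fc v k ∈ R
    · refine ⟨⟨k, h0, h1, h2, ?_⟩, k, h0, h1, h2, hr⟩
      intro he
      apply h
      by_cases hc : ω (fc v (k + 1)) = c
      · have z1 : yy U R ω c (ed v (k + 1)) = 1 := yy_one (by
          rw [e11, e12]
          exact Or.inr ⟨h0, hr, h2, by rw [← he]; exact hc⟩)
        have z2 : yy U R ω c (ed v (k + 2)) = 1 := yy_one (by
          rw [e21, e22]
          exact Or.inl ⟨h0, hr, h1, hc⟩)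
        rw [dv_rot _ v k, z0, z1, z2]
        rfl
      · have z1 : yy U R ω c (ed v (k + 1)) = 0 := yy_zero (by
          rw [e11, e12]
          rintro (h | h)
          · exact h2 h.1
          · exact hc (by rw [he]; exact h.2.2.2))
        have z2 : yy U R ω c (ed v (k + 2)) = 0 := yy_zero (by
          rw [e21, e22]
          rintro (h | h)
          · exact hc h.2.2.2
          · exact h1 h.1)
        rw [dv_rot _ v k, z0, z1, z2]
        rfl
    · exfalso
      apply h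
      have z1 : yy U R ω c (ed v (k + 1)) = 0 := yy_zero (by
        rw [e11, e12]
        rintro (h | h)
        · exact h2 h.1
        · exact hr h.2.1)
      have z2 : yy U R ω c (ed v (k + 2)) = 0 := yy_zero (by
        rw [e21, e22]
        rintro (h | h)
        · exact hr h.2.1
        · exact h1 h.1)
      rw [dv_rot _ v k, z0, z1, z2]
      rfl
  by_cases u0 : fc v 0 ∈ U <;> by_cases u1 : fc v 1 ∈ U <;> by_cases u2 : fc v 2 ∈ U
  · exact absurd (H0 0 u0 u1 u2) h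
  · exact absurd (H2 2 u2 u0 u1) h
  · exact absurd (H2 1 u1 u2 u0) h
  · exact H1 0 u0 u1 u2
  · exact absurd (H2 0 u0 u1 u2) h
  · exact H1 1 u1 u2 u0
  · exact H1 2 u2 u0 u1
  · exact absurd (H3 0 u0 u1 u2) h

/-- every component of the boundary faces of colour `c` reaches both colour changes -/
theorem exists_chg {U : Finset Fc} {ω : Fc → Bool} (hU : St U ω) {p : Pos} (hp : IsTip U ω p)
    (c : Bool) {f : Fc} (hf : f ∈ Ac U ω c) :
    ∃ v w, v ≠ w ∧ chg U ω v ∧ chg U ω w ∧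
      (∃ k, fc v k ∈ U ∧ fc v (k + 1) ∉ U ∧ fc v (k + 2) ∉ U ∧ Jn (Ac U ω c) f (fc v k)) ∧
      (∃ k, fc w k ∈ U ∧ fc w (k + 1) ∉ U ∧ fc w (k + 2) ∉ U ∧ Jn (Ac U ω c) f (fc w k)) := by
  classical
  set R : Set Fc := {a | Jn (Ac U ω c) f a} with hRdef
  have hR : ∀ a b, a ∈ R → b ∈ Ac U ω c → adjF a b → b ∈ R := fun a b h1 h2 h3 =>
    Jn.step h1 h2 h3
  have hB : ∀ e, yy U R ω c e ≠ 0 → isB U e := by
    intro e he
    have h1 : e ∈ {e | Out U R ω c (lf e) (rf e) ∨ Out U R ω c (rf e) (lf e)} := by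
      by_contra h
      exact he (ind_not h)
    rcases h1 with h1 | h1
    · exact Or.inl ⟨h1.1, h1.2.2.1⟩
    · exact Or.inr ⟨h1.2.2.1, h1.1⟩
  -- some odd vertex
  have hodd : ∃ v, dv (yy U R ω c) v ≠ 0 := by
    by_contra hno
    push Not at hno
    rcases Pool.Agent.H63.UC.d1b U hU.dom (yy U R ω c) hB hno with h | h
    · obtain ⟨hfU, x, hx, hadj, hc⟩ := hf
      obtain ⟨m, rfl⟩ := adjF_nbr hadj
      have h1 := h (eg f m)
      have h2 : yy U R ω c (eg f m) = 1 := by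
        refine ind_mem ?_
        have hfR : f ∈ R := Jn.refl _
        rcases eg_faces f m with ⟨e1, e2⟩ | ⟨e1, e2⟩
        · left; rw [e1, e2]; exact ⟨hfU, hfR, hx, hc⟩
        · right; rw [e1, e2]; exact ⟨hfU, hfR, hx, hc⟩
      rw [h1] at h2
      exact absurd h2 (by decide)
    · obtain ⟨t1, t2, t3, t4, t5⟩ := hp
      -- the two edges at the tip
      have key : ∀ x, x ∉ U → adjF (ph p) x → ω x = c := by
        intro x hx hadj
        obtain ⟨m, rfl⟩ := adjF_nbr hadj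
        have h1 : isB U (eg (ph p) m) := by
          rcases eg_faces (ph p) m with ⟨e1, e2⟩ | ⟨e1, e2⟩
          · left; rw [e1, e2]; exact ⟨t1, hx⟩
          · right; rw [e1, e2]; exact ⟨hx, t1⟩
        have h2 := h _ h1
        have h3 : eg (ph p) m ∈
            {e | Out U R ω c (lf e) (rf e) ∨ Out U R ω c (rf e) (lf e)} := by
          by_contra hn
          have : yy U R ω c (eg (ph p) m) = 0 := ind_not hn
          rw [this] at h2
          exact absurd h2 (by decide)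
        rw [Set.mem_ofPred_eq] at h3
        rcases eg_faces (ph p) m with ⟨e1, e2⟩ | ⟨e1, e2⟩
        · rw [e1, e2] at h3
          rcases h3 with h3 | h3
          · exact h3.2.2.2
          · exact absurd h3.1 hx
        · rw [e1, e2] at h3
          rcases h3 with h3 | h3
          · exact absurd h3.1 hx
          · exact h3.2.2.2
      have k1 := key _ t2 (adj_hl p)
      have k2 := key _ t3 (adj_hr p)
      rw [t4] at k1
      rw [t5] at k2
      rw [← k2] at k1
      exact absurd k1 (by decide)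
  obtain ⟨v, hv⟩ := hodd
  have hsum := sum_dv (U := U) (x := yy U R ω c) (fun e he => by
    rcases hB e he with h | h
    · exact Or.inl h.1
    · exact Or.inr h.2)
  obtain ⟨hv1, k, hk1, hk2, hk3, hk4⟩ := dv_yy hR v hv
  have hvV : v ∈ verts U := mem_verts.2 ⟨k, hk1⟩
  have hw : ∃ w, w ≠ v ∧ dv (yy U R ω c) w ≠ 0 := by
    by_contra hno
    push Not at hno
    rw [Finset.sum_eq_single v (fun b _ hb => hno b hb) (fun h => absurd hvV h)] at hsum
    exact hv hsum
  obtain ⟨w, hwv, hw⟩ := hw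
  obtain ⟨hw1, l, hl1, hl2, hl3, hl4⟩ := dv_yy hR w hw
  exact ⟨v, w, fun h => hwv h.symm, hv1, hw1, ⟨k, hk1, hk2, hk3, hk4⟩, ⟨l, hl1, hl2, hl3, hl4⟩⟩

theorem arcC : ArcC := by
  intro U ω hU p hp c f g hf hg hxf hxg
  have hfA : f ∈ Ac U ω c := ⟨hf, hxf⟩
  have hgA : g ∈ Ac U ω c := ⟨hg, hxg⟩
  obtain ⟨v, w, hvw, hv, hw, ⟨k, hk1, hk2, hk3, hk4⟩, ⟨l, hl1, hl2, hl3, hl4⟩⟩ :=
    exists_chg hU hp c hfA
  obtain ⟨v', w', hvw', hv', hw', ⟨k', hk1', hk2', hk3', hk4'⟩, _⟩ :=
    exists_chg hU hp c hgA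
  have uniq : ∀ (v : Vx) (k l : Fin 3), fc v k ∈ U → fc v (k + 1) ∉ U → fc v (k + 2) ∉ U →
      fc v l ∈ U → l = k := by
    intro v k l h1 h2 h3 h4
    have : ∀ k l : Fin 3, l = k ∨ l = k + 1 ∨ l = k + 2 := by decide
    rcases this k l with rfl | rfl | rfl
    · rfl
    · exact absurd h4 h2
    · exact absurd h4 h3
  have back : ∀ a, Jn (Ac U ω c) g a → Jn (Ac U ω c) a g := fun a h => h.symm hgA
  rcases hU.two v w v' hv hw hv' with h | h | h
  · exact absurd h hvw
  · subst h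
    have := uniq v k k' hk1 hk2 hk3 hk1'
    subst this
    exact hk4.trans (back _ hk4')
  · subst h
    have := uniq w l k' hl1 hl2 hl3 hk1'
    subst this
    exact hl4.trans (back _ hk4')

end Pool.Agent.H11.Tri
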